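import Pool.Agent.H50.DRCore

/-!
# MP_85987b_pr: no moment condition of order below three is enough

Laws on `ℕ` are measures. The recursion of the problem is `next`, the image of a product measure,
and `law m μ n` is the law of `X_n` when `X_0` has law `μ`.
-/

set_option autoImplicit false
open Filter Topology MeasureTheory

namespace Pool.Agent.Results.MP_85987b_pr.BelowThree

/-- The law of `(x_1 + ⋯ + x_m - 1)^+` for independent `x_1, …, x_m` with law `μ`. The
subtraction is the one of natural numbers, that is the positive part of the difference. -/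
noncomputable def next (m : ℕ) (μ : Measure ℕ) : Measure ℕ :=
  (Measure.pi (fun _ : Fin m => μ)).map (fun x => (∑ i, x i) - 1)

/-- The law of `X_n` when `X_0` has law `μ`. -/
noncomputable def law (m : ℕ) (μ : Measure ℕ) : ℕ → Measure ℕ
  | 0 => μ
  | n + 1 => next m (law m μ n)

/-- The condition `(∗)` of the problem, degenerate case excluded: `E (m ^ X_0)` and
`E (X_0 m ^ X_0)` are finite, `(m - 1) E (X_0 m ^ X_0) = E (m ^ X_0)`, and it is not the case that
`m = 2` and `X_0 = 1` almost surely. -/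
def Critical (m : ℕ) (μ : Measure ℕ) : Prop :=
  Integrable (fun k : ℕ => (m : ℝ) ^ k) μ ∧
  Integrable (fun k : ℕ => (k : ℝ) * (m : ℝ) ^ k) μ ∧
  ((m : ℝ) - 1) * ∫ k, (k : ℝ) * (m : ℝ) ^ k ∂μ = ∫ k, (m : ℝ) ^ k ∂μ ∧
  ¬ (m = 2 ∧ μ {1} = 1)

/-- The asymptotics of Q1 for one value of `s`: the ratio of `E (s ^ X_n) - 1` to
`4 m / (m - 1) ^ 2 * (s - 1) / (m - s) * 1 / n ^ 2` tends to `1`. -/
def Asymptotics (m : ℕ) (μ : Measure ℕ) (s : ℝ) : Prop :=
  Tendsto (fun n : ℕ => ((∫ k, s ^ k ∂(law m μ n)) - 1) /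
    (4 * m / ((m : ℝ) - 1) ^ 2 * ((s - 1) / (m - s)) * (1 / (n : ℝ) ^ 2))) atTop (𝓝 1)

/-! ### One step of the recursion -/

lemma integral_next (m : ℕ) (μ : Measure ℕ) (f : ℕ → ℝ) :
    ∫ k, f k ∂(next m μ) = ∫ x, f ((∑ i, x i) - 1) ∂(Measure.pi (fun _ : Fin m => μ)) := by
  unfold next
  rw [integral_map Measurable.of_discrete.aemeasurable
    (Measurable.of_discrete.aestronglyMeasurable)]

lemma integrable_next (m : ℕ) (μ : Measure ℕ) (f : ℕ → ℝ) :
    Integrable f (next m μ) ↔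
      Integrable (fun x => f ((∑ i, x i) - 1)) (Measure.pi (fun _ : Fin m => μ)) := by
  unfold next
  rw [integrable_map_measure (Measurable.of_discrete.aestronglyMeasurable)
    Measurable.of_discrete.aemeasurable]
  rfl

/-- The indicator of zero. -/
def ind0 (k : ℕ) : ℝ := if k = 0 then 1 else 0

lemma ind0_nonneg (k : ℕ) : 0 ≤ ind0 k := by
  unfold ind0
  split_ifs <;> norm_num

lemma prod_ind0_of_zero {m : ℕ} {x : Fin m → ℕ} (h : ∑ i, x i = 0) : ∏ i, ind0 (x i) = 1 := by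
  apply Finset.prod_eq_one
  intro i hi
  have := (Finset.sum_eq_zero_iff.mp h) i hi
  simp [ind0, this]

lemma prod_ind0_of_ne {m : ℕ} {x : Fin m → ℕ} (h : ∑ i, x i ≠ 0) : ∏ i, ind0 (x i) = 0 := by
  have h1 : ∃ i ∈ (Finset.univ : Finset (Fin m)), x i ≠ 0 := by
    by_contra hcon
    push Not at hcon
    exact h (Finset.sum_eq_zero hcon)
  obtain ⟨i, hi, hxi⟩ := h1
  exact Finset.prod_eq_zero hi (by simp [ind0, hxi])

section step

variable {m : ℕ} {μ : Measure ℕ} [IsProbabilityMeasure μ]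

instance next_prob : IsProbabilityMeasure (next m μ) :=
  Measure.isProbabilityMeasure_map Measurable.of_discrete.aemeasurable

lemma integrable_ind0 : Integrable ind0 μ := by
  refine Integrable.of_bound (C := 1) (Measurable.of_discrete.aestronglyMeasurable) ?_
  refine Eventually.of_forall fun k => ?_
  unfold ind0
  split_ifs <;> simp

lemma int_prod (f : ℕ → ℝ) :
    ∫ x, ∏ i, f (x i) ∂(Measure.pi (fun _ : Fin m => μ)) = (∫ k, f k ∂μ) ^ m := by
  rw [integral_fintype_prod_eq_pow, Fintype.card_fin]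

lemma integrable_prod {f : ℕ → ℝ} (hf : Integrable f μ) :
    Integrable (fun x : Fin m → ℕ => ∏ i, f (x i)) (Measure.pi (fun _ : Fin m => μ)) :=
  Integrable.fintype_prod (f := fun _ : Fin m => f) (fun _ => hf)

/-- The pointwise formula for powers. -/
lemma pow_pointwise {t : ℝ} (ht : t ≠ 0) (x : Fin m → ℕ) :
    t ^ ((∑ i, x i) - 1) = t⁻¹ * (∏ i, t ^ x i) + (1 - t⁻¹) * ∏ i, ind0 (x i) := by
  rw [Finset.prod_pow_eq_pow_sum]
  by_cases h : ∑ i, x i = 0
  · rw [prod_ind0_of_zero h, h]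
    simp
  · rw [prod_ind0_of_ne h, mul_zero, add_zero]
    obtain ⟨j, hj⟩ := Nat.exists_eq_succ_of_ne_zero h
    rw [hj]
    simp only [Nat.succ_eq_add_one, Nat.add_sub_cancel, pow_succ]
    field_simp

lemma integrable_pow_next {t : ℝ} (ht : t ≠ 0) (h : Integrable (fun k : ℕ => t ^ k) μ) :
    Integrable (fun k : ℕ => t ^ k) (next m μ) := by
  rw [integrable_next]
  refine Integrable.congr (((integrable_prod h).const_mul t⁻¹).add
    ((integrable_prod integrable_ind0).const_mul (1 - t⁻¹))) ?_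
  exact Eventually.of_forall fun x => (pow_pointwise ht x).symm

lemma integral_pow_next {t : ℝ} (ht : t ≠ 0) (h : Integrable (fun k : ℕ => t ^ k) μ) :
    ∫ k, t ^ k ∂(next m μ) =
      (∫ k, t ^ k ∂μ) ^ m / t + (1 - 1 / t) * (∫ k, ind0 k ∂μ) ^ m := by
  rw [integral_next]
  simp_rw [pow_pointwise ht]
  rw [integral_add ((integrable_prod h).const_mul t⁻¹)
    ((integrable_prod integrable_ind0).const_mul (1 - t⁻¹)), integral_const_mul,
    integral_const_mul, int_prod, int_prod]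
  ring

/-- The pointwise formula for the derivative. -/
lemma deriv_pointwise {t : ℝ} (ht : t ≠ 0) (x : Fin m → ℕ) :
    (((∑ i, x i) - 1 : ℕ) : ℝ) * t ^ ((∑ i, x i) - 1) =
      t⁻¹ * ((∑ j, ∏ i, ((if i = j then (x i : ℝ) else 1) * t ^ x i)) - ∏ i, t ^ x i) +
        t⁻¹ * ∏ i, ind0 (x i) := by
  have h1 : ∀ j : Fin m, ∏ i, ((if i = j then (x i : ℝ) else 1) * t ^ x i) =
      (x j : ℝ) * ∏ i, t ^ x i := by
    intro j
    rw [Finset.prod_mul_distrib, Finset.prod_ite_eq' Finset.univ j (fun i => (x i : ℝ)),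
      if_pos (Finset.mem_univ j)]
  rw [Finset.sum_congr rfl (fun j _ => h1 j), ← Finset.sum_mul, Finset.prod_pow_eq_pow_sum]
  by_cases h : ∑ i, x i = 0
  · have h2 : ∑ i, (x i : ℝ) = 0 := by
      rw [← Nat.cast_sum, h, Nat.cast_zero]
    rw [prod_ind0_of_zero h, h, h2]
    simp
  · rw [prod_ind0_of_ne h, mul_zero, add_zero]
    obtain ⟨j, hj⟩ := Nat.exists_eq_succ_of_ne_zero h
    have h2 : ∑ i, (x i : ℝ) = (j : ℝ) + 1 := by
      rw [← Nat.cast_sum, hj]
      push_cast
      ring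
    rw [hj, h2]
    simp only [Nat.succ_eq_add_one, Nat.add_sub_cancel, pow_succ]
    field_simp
    ring

lemma integrable_coord {t : ℝ} (h : Integrable (fun k : ℕ => t ^ k) μ)
    (h' : Integrable (fun k : ℕ => (k : ℝ) * t ^ k) μ) (j : Fin m) :
    Integrable (fun x : Fin m → ℕ => ∏ i, ((if i = j then (x i : ℝ) else 1) * t ^ x i))
      (Measure.pi (fun _ : Fin m => μ)) := by
  refine Integrable.fintype_prod
    (f := fun (i : Fin m) (k : ℕ) => (if i = j then (k : ℝ) else 1) * t ^ k) (fun i => ?_)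
  by_cases hij : i = j
  · simpa [hij] using h'
  · simpa [hij] using h

lemma integral_coord {t : ℝ} (j : Fin m) :
    ∫ x, ∏ i, ((if i = j then (x i : ℝ) else 1) * t ^ x i)
      ∂(Measure.pi (fun _ : Fin m => μ)) =
      (∫ k, (k : ℝ) * t ^ k ∂μ) * (∫ k, t ^ k ∂μ) ^ (m - 1) := by
  rw [integral_fintype_prod_eq_prod
    (fun (i : Fin m) (k : ℕ) => (if i = j then (k : ℝ) else 1) * t ^ k)]
  rw [← Finset.mul_prod_erase Finset.univ _ (Finset.mem_univ j)]
  congr 1
  · simp
  · have h1 : ∀ i ∈ Finset.univ.erase j,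
        ∫ k, (if i = j then (k : ℝ) else 1) * t ^ k ∂μ = ∫ k, t ^ k ∂μ := by
      intro i hi
      have hij : i ≠ j := Finset.ne_of_mem_erase hi
      simp [hij]
    rw [Finset.prod_congr rfl h1, Finset.prod_const, Finset.card_erase_of_mem (Finset.mem_univ j),
      Finset.card_univ, Fintype.card_fin]

lemma integrable_deriv_next {t : ℝ} (ht : t ≠ 0) (h : Integrable (fun k : ℕ => t ^ k) μ)
    (h' : Integrable (fun k : ℕ => (k : ℝ) * t ^ k) μ) :
    Integrable (fun k : ℕ => (k : ℝ) * t ^ k) (next m μ) := by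
  rw [integrable_next]
  refine Integrable.congr ((((integrable_finsetSum Finset.univ
    (fun j _ => integrable_coord h h' j)).sub (integrable_prod h)).const_mul t⁻¹).add
    ((integrable_prod integrable_ind0).const_mul t⁻¹)) ?_
  exact Eventually.of_forall fun x => (deriv_pointwise ht x).symm

lemma integral_deriv_next {t : ℝ} (ht : t ≠ 0) (h : Integrable (fun k : ℕ => t ^ k) μ)
    (h' : Integrable (fun k : ℕ => (k : ℝ) * t ^ k) μ) :
    ∫ k, (k : ℝ) * t ^ k ∂(next m μ) =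
      (m * ((∫ k, (k : ℝ) * t ^ k ∂μ) * (∫ k, t ^ k ∂μ) ^ (m - 1)) - (∫ k, t ^ k ∂μ) ^ m) / t +
        (∫ k, ind0 k ∂μ) ^ m / t := by
  rw [integral_next]
  simp_rw [deriv_pointwise ht]
  have hS : Integrable (fun x : Fin m → ℕ =>
      ∑ j, ∏ i, ((if i = j then (x i : ℝ) else 1) * t ^ x i))
      (Measure.pi (fun _ : Fin m => μ)) :=
    integrable_finsetSum Finset.univ (fun j _ => integrable_coord h h' j)
  have hD : Integrable (fun x : Fin m → ℕ =>
      (∑ j, ∏ i, ((if i = j then (x i : ℝ) else 1) * t ^ x i)) - ∏ i, t ^ x i)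
      (Measure.pi (fun _ : Fin m => μ)) := hS.sub (integrable_prod h)
  rw [integral_add (hD.const_mul t⁻¹)
    ((integrable_prod integrable_ind0).const_mul t⁻¹), integral_const_mul, integral_const_mul,
    integral_sub hS (integrable_prod h), int_prod, int_prod,
    integral_finsetSum Finset.univ (fun j _ => integrable_coord h h' j)]
  rw [Finset.sum_congr rfl (fun j _ => integral_coord j), Finset.sum_const, Finset.card_univ,
    Fintype.card_fin, nsmul_eq_mul]
  ring

/-- The truncated power. -/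
noncomputable def low (t : ℝ) (K k : ℕ) : ℝ := if k < K then t ^ k else 0

/-- The tail of the power. -/
noncomputable def high (t : ℝ) (K k : ℕ) : ℝ := if K ≤ k then t ^ k else 0

lemma low_add_high (t : ℝ) (K k : ℕ) : low t K k = t ^ k - high t K k := by
  unfold low high
  split_ifs with h1 h2 h2
  · omega
  · simp
  · simp
  · omega

lemma low_nonneg {t : ℝ} (ht : 0 ≤ t) (K k : ℕ) : 0 ≤ low t K k := by
  unfold low
  split_ifs
  · positivity
  · exact le_rfl

lemma high_nonneg {t : ℝ} (ht : 0 ≤ t) (K k : ℕ) : 0 ≤ high t K k := by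
  unfold high
  split_ifs
  · positivity
  · exact le_rfl

lemma high_le {t : ℝ} (ht : 0 ≤ t) (K k : ℕ) : high t K k ≤ t ^ k := by
  unfold high
  split_ifs
  · exact le_rfl
  · positivity

omit [IsProbabilityMeasure μ] in
lemma integrable_high {t : ℝ} (ht : 0 ≤ t) (h : Integrable (fun k : ℕ => t ^ k) μ) (K : ℕ) :
    Integrable (high t K) μ := by
  refine h.mono (Measurable.of_discrete.aestronglyMeasurable) ?_
  refine Eventually.of_forall fun k => ?_
  rw [Real.norm_of_nonneg (high_nonneg ht K k), Real.norm_of_nonneg (pow_nonneg ht k)]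
  exact high_le ht K k

omit [IsProbabilityMeasure μ] in
lemma integrable_low {t : ℝ} (ht : 0 ≤ t) (h : Integrable (fun k : ℕ => t ^ k) μ) (K : ℕ) :
    Integrable (low t K) μ := by
  refine (h.sub (integrable_high ht h K)).congr ?_
  exact Eventually.of_forall fun k => (low_add_high t K k).symm

omit [IsProbabilityMeasure μ] in
lemma integral_low {t : ℝ} (ht : 0 ≤ t) (h : Integrable (fun k : ℕ => t ^ k) μ) (K : ℕ) :
    ∫ k, low t K k ∂μ = ∫ k, t ^ k ∂μ - ∫ k, high t K k ∂μ := by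
  simp_rw [low_add_high]
  exact integral_sub h (integrable_high ht h K)

lemma low_pointwise {t : ℝ} (ht : 1 ≤ t) {K : ℕ} (hK : 1 ≤ K) (x : Fin m → ℕ) :
    low t K ((∑ i, x i) - 1) ≤
      t⁻¹ * (∏ i, low t (K + 1) (x i)) + (1 - t⁻¹) * ∏ i, ind0 (x i) := by
  have ht0 : 0 < t := by linarith
  have hinv : t⁻¹ ≤ 1 := inv_le_one_of_one_le₀ ht
  by_cases h : ∑ i, x i = 0
  · rw [prod_ind0_of_zero h, h]
    have h1 : ∏ i, low t (K + 1) (x i) = 1 := by
      apply Finset.prod_eq_one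
      intro i hi
      have := (Finset.sum_eq_zero_iff.mp h) i hi
      simp [low, this]
    rw [h1]
    unfold low
    rw [if_pos (by omega)]
    simp
  · rw [prod_ind0_of_ne h, mul_zero, add_zero]
    by_cases h2 : (∑ i, x i) - 1 < K
    · have h3 : ∀ i, x i < K + 1 := by
        intro i
        have : x i ≤ ∑ i, x i := Finset.single_le_sum (fun i _ => Nat.zero_le _) (Finset.mem_univ i)
        omega
      have h4 : ∏ i, low t (K + 1) (x i) = t ^ (∑ i, x i) := by
        rw [← Finset.prod_pow_eq_pow_sum]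
        apply Finset.prod_congr rfl
        intro i _
        unfold low
        rw [if_pos (h3 i)]
      rw [h4]
      unfold low
      rw [if_pos h2]
      obtain ⟨j, hj⟩ := Nat.exists_eq_succ_of_ne_zero h
      rw [hj]
      simp only [Nat.succ_eq_add_one, Nat.add_sub_cancel, pow_succ]
      apply le_of_eq
      field_simp
    · have h5 : low t K ((∑ i, x i) - 1) = 0 := by
        unfold low
        rw [if_neg h2]
      rw [h5]
      exact mul_nonneg (by positivity)
        (Finset.prod_nonneg fun i _ => low_nonneg ht0.le (K + 1) (x i))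

lemma low_next {t : ℝ} (ht : 1 ≤ t) (h : Integrable (fun k : ℕ => t ^ k) μ) {K : ℕ}
    (hK : 1 ≤ K) :
    (∫ k, t ^ k ∂(next m μ)) - ∫ k, high t K k ∂(next m μ) ≤
      ((∫ k, t ^ k ∂μ) - ∫ k, high t (K + 1) k ∂μ) ^ m / t +
        (1 - 1 / t) * (∫ k, ind0 k ∂μ) ^ m := by
  have ht0 : 0 < t := by linarith
  rw [← integral_low ht0.le (integrable_pow_next ht0.ne' h), ← integral_low ht0.le h,
    integral_next]
  have hi1 := ((integrable_prod (m := m) (integrable_low ht0.le h (K + 1))).const_mul t⁻¹)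
  have hi2 := ((integrable_prod (m := m) (μ := μ) integrable_ind0).const_mul (1 - t⁻¹))
  have h1 : ∫ x, low t K ((∑ i, x i) - 1) ∂(Measure.pi (fun _ : Fin m => μ)) ≤
      ∫ x, (t⁻¹ * (∏ i, low t (K + 1) (x i)) + (1 - t⁻¹) * ∏ i, ind0 (x i))
        ∂(Measure.pi (fun _ : Fin m => μ)) := by
    refine integral_mono ?_ (hi1.add hi2) (fun x => low_pointwise ht hK x)
    rw [← integrable_next]
    exact integrable_low ht0.le (integrable_pow_next ht0.ne' h) K
  refine h1.trans (le_of_eq ?_)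
  rw [integral_add hi1 hi2, integral_const_mul, integral_const_mul, int_prod, int_prod]
  ring

lemma one_le_mgf {t : ℝ} (ht : 1 ≤ t) (h : Integrable (fun k : ℕ => t ^ k) μ) :
    1 ≤ ∫ k, t ^ k ∂μ := by
  have h1 : ∫ _k : ℕ, (1 : ℝ) ∂μ = 1 := by simp
  rw [← h1]
  exact integral_mono (integrable_const _) h (fun k => one_le_pow₀ ht)

lemma mgf_le {t : ℝ} (ht : 2 ≤ t) (h : Integrable (fun k : ℕ => t ^ k) μ)
    (h' : Integrable (fun k : ℕ => (k : ℝ) * t ^ k) μ)
    (hcrit : (t - 1) * ∫ k, (k : ℝ) * t ^ k ∂μ = ∫ k, t ^ k ∂μ) :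
    ∫ k, t ^ k ∂μ ≤ t := by
  have h1 : ∫ k, (2 * t ^ k - (t - 1) * ((k : ℝ) * t ^ k)) ∂μ ≤ ∫ _k : ℕ, t ∂μ := by
    refine integral_mono ((h.const_mul 2).sub (h'.const_mul (t - 1))) (integrable_const _) ?_
    intro k
    simp only
    rcases k with _ | _ | k
    · simp
      linarith
    · simp
      nlinarith
    · have h2 : (2 : ℝ) * t ^ (k + 1 + 1) - (t - 1) * (((k + 1 + 1 : ℕ) : ℝ) * t ^ (k + 1 + 1)) =
          (2 - (t - 1) * ((k : ℝ) + 2)) * t ^ (k + 2) := by
        push_cast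
        ring
      rw [h2]
      have h3 : 2 - (t - 1) * ((k : ℝ) + 2) ≤ 0 := by
        have : (0 : ℝ) ≤ k := Nat.cast_nonneg k
        nlinarith
      have h4 : (2 - (t - 1) * ((k : ℝ) + 2)) * t ^ (k + 2) ≤ 0 :=
        mul_nonpos_of_nonpos_of_nonneg h3 (by positivity)
      linarith
  rw [integral_sub (h.const_mul 2) (h'.const_mul (t - 1)), integral_const_mul,
    integral_const_mul, hcrit] at h1
  simp at h1
  linarith

omit [IsProbabilityMeasure μ] in
lemma tail_le {t : ℝ} (ht : 0 ≤ t) (h : Integrable (fun k : ℕ => t ^ k) μ)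
    (h' : Integrable (fun k : ℕ => (k : ℝ) * t ^ k) μ) (K : ℕ) :
    K * ∫ k, high t K k ∂μ ≤ ∫ k, (k : ℝ) * t ^ k ∂μ := by
  rw [← integral_const_mul]
  refine integral_mono ((integrable_high ht h K).const_mul _) h' (fun k => ?_)
  simp only
  unfold high
  split_ifs with hk
  · apply mul_le_mul_of_nonneg_right _ (pow_nonneg ht k)
    exact_mod_cast hk
  · rw [mul_zero]
    positivity

end step

/-! ### The whole recursion -/

section whole

variable {m : ℕ} {μ : Measure ℕ} [IsProbabilityMeasure μ]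

instance law_prob (n : ℕ) : IsProbabilityMeasure (law m μ n) := by
  induction n with
  | zero => exact ‹IsProbabilityMeasure μ›
  | succ n ih => exact next_prob

lemma law_pow {t : ℝ} (ht : t ≠ 0) (h : Integrable (fun k : ℕ => t ^ k) μ) (n : ℕ) :
    Integrable (fun k : ℕ => t ^ k) (law m μ n) := by
  induction n with
  | zero => exact h
  | succ n ih => exact integrable_pow_next ht ih

lemma law_crit (hm : 2 ≤ m) (h : Critical m μ) (n : ℕ) :
    Integrable (fun k : ℕ => (m : ℝ) ^ k) (law m μ n) ∧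
    Integrable (fun k : ℕ => (k : ℝ) * (m : ℝ) ^ k) (law m μ n) ∧
    ((m : ℝ) - 1) * ∫ k, (k : ℝ) * (m : ℝ) ^ k ∂(law m μ n) =
      ∫ k, (m : ℝ) ^ k ∂(law m μ n) := by
  have hm0 : (m : ℝ) ≠ 0 := by
    have : (2 : ℝ) ≤ m := by exact_mod_cast hm
    linarith
  induction n with
  | zero => exact ⟨h.1, h.2.1, h.2.2.1⟩
  | succ n ih =>
    obtain ⟨h1, h2, h3⟩ := ih
    refine ⟨integrable_pow_next hm0 h1, integrable_deriv_next hm0 h1 h2, ?_⟩
    change ((m : ℝ) - 1) * ∫ k, (k : ℝ) * (m : ℝ) ^ k ∂(next m (law m μ n)) =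
      ∫ k, (m : ℝ) ^ k ∂(next m (law m μ n))
    rw [integral_deriv_next hm0 h1 h2, integral_pow_next hm0 h1]
    set A := ∫ k, (m : ℝ) ^ k ∂(law m μ n) with hA
    set B := ∫ k, (k : ℝ) * (m : ℝ) ^ k ∂(law m μ n) with hB
    have h4 : A ^ m = A ^ (m - 1) * A := by
      rw [← pow_succ]
      congr 1
      omega
    field_simp
    rw [h4]
    linear_combination (m : ℝ) * A ^ (m - 1) * h3

/-- The tail of the initial law, if the asymptotics holds for one `s`. -/
lemma tail_bound (hm : 2 ≤ m) (h : Critical m μ) {s : ℝ} (hs0 : 0 < s) (hsm : s < m)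
    (hs1 : s ≠ 1) (has : Asymptotics m μ s) {δ : ℝ} (hδ0 : 0 < δ) (hδ : δ < 2) :
    ∃ C : ℝ, 0 < C ∧ ∀ N : ℕ, 1 ≤ N →
      ∫ k, high m (2 * N) k ∂μ ≤ C * (N : ℝ) ^ (-(1 + δ)) := by
  have hm2 : (2 : ℝ) ≤ m := by exact_mod_cast hm
  have hm0 : (0 : ℝ) < m := by linarith
  have hm1 : (0 : ℝ) < (m : ℝ) - 1 := by linarith
  have hs : Integrable (fun k : ℕ => s ^ k) μ := by
    refine h.1.mono (Measurable.of_discrete.aestronglyMeasurable) ?_
    refine Eventually.of_forall fun k => ?_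
    rw [Real.norm_of_nonneg (by positivity), Real.norm_of_nonneg (by positivity)]
    exact pow_le_pow_left₀ hs0.le hsm.le k
  refine Pool.Agent.H50.DRCore.core (m := m) hm (A := fun n => ∫ k, (m : ℝ) ^ k ∂(law m μ n))
    (G := fun n => ∫ k, s ^ k ∂(law m μ n)) (q := fun n => (∫ k, ind0 k ∂(law m μ n)) ^ m)
    (T := fun n K => ∫ k, high m K k ∂(law m μ n)) hs0 hsm hs1 ?_ ?_ ?_ ?_ ?_ ?_ ?_ ?_ ?_
    hδ0 hδ
  · exact fun n => one_le_mgf (by linarith) (law_crit hm h n).1
  · exact fun n => mgf_le hm2 (law_crit hm h n).1 (law_crit hm h n).2.1 (law_crit hm h n).2.2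
  · exact fun n => integral_pow_next hm0.ne' (law_crit hm h n).1
  · exact fun n => integral_pow_next hs0.ne' (law_pow hs0.ne' hs n)
  · exact fun n K => integral_nonneg (fun k => high_nonneg hm0.le K k)
  · exact fun n K => integral_mono (integrable_high hm0.le (law_crit hm h n).1 K)
      (law_crit hm h n).1 (fun k => high_le hm0.le K k)
  · intro n K
    rw [← (law_crit hm h n).2.2]
    exact mul_le_mul_of_nonneg_left
      (tail_le hm0.le (law_crit hm h n).1 (law_crit hm h n).2.1 K) hm1.le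
  · exact fun n K hK => low_next (by linarith) (law_crit hm h n).1 hK
  · set g : ℝ := 4 * m / ((m : ℝ) - 1) ^ 2 * ((s - 1) / (m - s)) with hg
    have hg0 : g ≠ 0 := by
      rw [hg]
      have h1 : s - 1 ≠ 0 := sub_ne_zero.mpr hs1
      have h2 : (m : ℝ) - s ≠ 0 := by linarith
      positivity
    have h1 := has.const_mul g
    rw [mul_one] at h1
    refine h1.congr' ?_
    filter_upwards [eventually_ge_atTop 1] with n hn
    have hn0 : (n : ℝ) ≠ 0 := by positivity
    rw [← hg]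
    field_simp

end whole

/-! ### From the tail to the moments -/

lemma moment {m : ℕ} (hm : 2 ≤ m) {μ : Measure ℕ} [IsProbabilityMeasure μ]
    (h : Integrable (fun k : ℕ => (m : ℝ) ^ k) μ) {C e γ : ℝ} (hC : 0 < C) (hγ0 : 0 ≤ γ)
    (hγ : γ < e)
    (htail : ∀ N : ℕ, 1 ≤ N → ∫ k, high m (2 * N) k ∂μ ≤ C * (N : ℝ) ^ (-e)) :
    Integrable (fun k : ℕ => (k : ℝ) ^ γ * (m : ℝ) ^ k) μ := by
  have hm0 : (0 : ℝ) < m := by
    have : (2 : ℝ) ≤ m := by exact_mod_cast hm
    linarith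
  set a : ℕ → ℕ → ℝ := fun i k => (4 * 2 ^ i : ℝ) ^ γ * high m (2 * 2 ^ i) k with ha
  have ha0 : ∀ i k, 0 ≤ a i k := fun i k =>
    mul_nonneg (by positivity) (high_nonneg hm0.le _ _)
  have hai : ∀ i, Integrable (a i) μ := fun i => (integrable_high hm0.le h _).const_mul _
  set b : ℕ → ℝ := fun i => (4 : ℝ) ^ γ * C * ((2 : ℝ) ^ (γ - e)) ^ i with hb
  have hb0 : ∀ i, 0 ≤ b i := fun i => by positivity
  have hbs : Summable b := by
    apply Summable.mul_left
    apply summable_geometric_of_lt_one (by positivity)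
    exact Real.rpow_lt_one_of_one_lt_of_neg (by norm_num) (by linarith)
  have hab : ∀ i, ∫ k, a i k ∂μ ≤ b i := by
    intro i
    simp only [ha, hb]
    rw [integral_const_mul]
    have h1 := htail (2 ^ i) (Nat.one_le_two_pow)
    have h2 : ((2 ^ i : ℕ) : ℝ) ^ (-e) = ((2 : ℝ) ^ (-e)) ^ i := by
      push_cast
      rw [← Real.rpow_natCast, ← Real.rpow_natCast, ← Real.rpow_mul (by norm_num),
        ← Real.rpow_mul (by norm_num), mul_comm]
    have h3 : (4 * 2 ^ i : ℝ) ^ γ = (4 : ℝ) ^ γ * ((2 : ℝ) ^ γ) ^ i := by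
      rw [Real.mul_rpow (by norm_num) (by positivity)]
      congr 1
      rw [← Real.rpow_natCast, ← Real.rpow_natCast, ← Real.rpow_mul (by norm_num),
        ← Real.rpow_mul (by norm_num), mul_comm]
    rw [h2] at h1
    rw [h3]
    calc (4 : ℝ) ^ γ * ((2 : ℝ) ^ γ) ^ i * ∫ k, high m (2 * 2 ^ i) k ∂μ
        ≤ (4 : ℝ) ^ γ * ((2 : ℝ) ^ γ) ^ i * (C * ((2 : ℝ) ^ (-e)) ^ i) :=
          mul_le_mul_of_nonneg_left h1 (by positivity)
      _ = (4 : ℝ) ^ γ * C * ((2 : ℝ) ^ γ * (2 : ℝ) ^ (-e)) ^ i := by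
          rw [mul_pow]
          ring
      _ = _ := by
          rw [← Real.rpow_add (by norm_num), ← sub_eq_add_neg]
  refine ⟨Measurable.of_discrete.aestronglyMeasurable, ?_⟩
  rw [hasFiniteIntegral_iff_ofReal (Eventually.of_forall fun k => by positivity)]
  have hpt : ∀ k : ℕ, ENNReal.ofReal ((k : ℝ) ^ γ * (m : ℝ) ^ k) ≤
      ENNReal.ofReal ((m : ℝ) ^ k) + ∑' i, ENNReal.ofReal (a i k) := by
    intro k
    rcases Nat.lt_or_ge k 2 with hk | hk
    · refine le_trans (ENNReal.ofReal_le_ofReal ?_) le_self_add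
      have h1 : (k : ℝ) ^ γ ≤ 1 := by
        apply Real.rpow_le_one (Nat.cast_nonneg k) _ hγ0
        exact_mod_cast Nat.lt_succ_iff.mp hk
      calc (k : ℝ) ^ γ * (m : ℝ) ^ k ≤ 1 * (m : ℝ) ^ k :=
            mul_le_mul_of_nonneg_right h1 (by positivity)
        _ = _ := one_mul _
    · refine le_trans ?_ le_add_self
      set j := Nat.log 2 k with hj
      have hj1 : 1 ≤ j := by
        rw [hj]
        exact Nat.log_pos (by norm_num) hk
      obtain ⟨i, hi⟩ : ∃ i, j = i + 1 := ⟨j - 1, by omega⟩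
      have h1 : 2 ^ j ≤ k := Nat.pow_log_le_self 2 (by omega)
      have h2 : k < 2 ^ (j + 1) := Nat.lt_pow_succ_log_self (by norm_num) k
      refine le_trans (ENNReal.ofReal_le_ofReal ?_) (ENNReal.le_tsum i)
      simp only [ha]
      have h3 : high m (2 * 2 ^ i) k = (m : ℝ) ^ k := by
        unfold high
        rw [if_pos]
        rw [hi, pow_succ, mul_comm] at h1
        exact h1
      rw [h3]
      apply mul_le_mul_of_nonneg_right _ (by positivity)
      apply Real.rpow_le_rpow (Nat.cast_nonneg k) _ hγ0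
      have h4 : (k : ℝ) ≤ ((2 ^ (j + 1) : ℕ) : ℝ) := by exact_mod_cast h2.le
      refine h4.trans (le_of_eq ?_)
      rw [hi]
      push_cast
      ring
  refine lt_of_le_of_lt (lintegral_mono hpt) ?_
  rw [lintegral_add_left Measurable.of_discrete]
  refine ENNReal.add_lt_top.mpr ⟨?_, ?_⟩
  · rw [← ofReal_integral_eq_lintegral_ofReal h (Eventually.of_forall fun k => by positivity)]
    exact ENNReal.ofReal_lt_top
  · rw [lintegral_tsum (fun i => Measurable.of_discrete.aemeasurable)]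
    have h1 : ∀ i, ∫⁻ k, ENNReal.ofReal (a i k) ∂μ ≤ ENNReal.ofReal (b i) := by
      intro i
      rw [← ofReal_integral_eq_lintegral_ofReal (hai i) (Eventually.of_forall (ha0 i))]
      exact ENNReal.ofReal_le_ofReal (hab i)
    refine lt_of_le_of_lt (ENNReal.tsum_le_tsum h1) ?_
    rw [← ENNReal.ofReal_tsum_of_nonneg hb0 hbs]
    exact ENNReal.ofReal_lt_top

/-- Necessity of the moments of order below three. -/
lemma necessary {m : ℕ} (hm : 2 ≤ m) {μ : Measure ℕ} [IsProbabilityMeasure μ]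
    (h : Critical m μ) {s : ℝ} (hs0 : 0 < s) (hsm : s < m) (hs1 : s ≠ 1)
    (has : Asymptotics m μ s) {γ : ℝ} (hγ : γ < 3) :
    Integrable (fun k : ℕ => (k : ℝ) ^ γ * (m : ℝ) ^ k) μ := by
  have hm0 : (0 : ℝ) < m := by
    have : (2 : ℝ) ≤ m := by exact_mod_cast hm
    linarith
  have key : ∀ γ' : ℝ, 0 ≤ γ' → γ' < 3 →
      Integrable (fun k : ℕ => (k : ℝ) ^ γ' * (m : ℝ) ^ k) μ := by
    intro γ' h0 h3
    obtain ⟨δ, h1, h2⟩ := exists_between (show max (γ' - 1) 0 < 2 by
      rw [max_lt_iff]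
      constructor <;> linarith)
    rw [max_lt_iff] at h1
    obtain ⟨C, hC, hT⟩ := tail_bound hm h hs0 hsm hs1 has h1.2 h2
    exact moment hm h.1 hC h0 (by linarith [h1.1]) hT
  have h1 := (key (max γ 0) (le_max_right _ _) (max_lt hγ (by norm_num))).add h.1
  refine h1.mono (Measurable.of_discrete.aestronglyMeasurable) ?_
  refine Eventually.of_forall fun k => ?_
  simp only [Pi.add_apply]
  rw [Real.norm_of_nonneg (by positivity), Real.norm_of_nonneg (by positivity)]
  rcases Nat.eq_zero_or_pos k with hk | hk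
  · subst hk
    simp only [Nat.cast_zero, pow_zero, mul_one]
    have h2 : (0 : ℝ) ^ γ ≤ 1 := Real.zero_rpow_le_one γ
    have h3 : 0 ≤ (0 : ℝ) ^ (max γ 0) := Real.rpow_nonneg le_rfl _
    linarith
  · have hk1 : (1 : ℝ) ≤ k := by exact_mod_cast hk
    have h2 : (k : ℝ) ^ γ ≤ (k : ℝ) ^ (max γ 0) :=
      Real.rpow_le_rpow_of_exponent_le hk1 (le_max_left _ _)
    have h3 : (k : ℝ) ^ γ * (m : ℝ) ^ k ≤ (k : ℝ) ^ (max γ 0) * (m : ℝ) ^ k :=
      mul_le_mul_of_nonneg_right h2 (by positivity)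
    have h4 : 0 ≤ (m : ℝ) ^ k := by positivity
    linarith

/-! ### The laws with few moments -/

section example_law

variable {m : ℕ} {g : ℝ}

/-- The weights `k ^ (-(1 + g))`; the weight of `0` is `0`. -/
noncomputable def w (g : ℝ) (k : ℕ) : ℝ := (k : ℝ) ^ (-(1 + g))

lemma w_nonneg (g : ℝ) (k : ℕ) : 0 ≤ w g k := Real.rpow_nonneg (Nat.cast_nonneg k) _

lemma w_pos (g : ℝ) {k : ℕ} (hk : 1 ≤ k) : 0 < w g k :=
  Real.rpow_pos_of_pos (by exact_mod_cast hk) _

lemma summable_w (hg : 2 < g) : Summable (w g) :=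
  Real.summable_nat_rpow.mpr (by linarith)

lemma kw (hg : 2 < g) {x : ℝ} (hx : x ≠ 1 + g) (k : ℕ) :
    (k : ℝ) ^ x * w g k = (k : ℝ) ^ (x - (1 + g)) := by
  unfold w
  rcases Nat.eq_zero_or_pos k with hk | hk
  · subst hk
    rw [Nat.cast_zero, Real.zero_rpow (by linarith : -(1 + g) ≠ 0), mul_zero,
      Real.zero_rpow (sub_ne_zero.mpr hx)]
  · have hk0 : (0 : ℝ) < k := by exact_mod_cast hk
    rw [← Real.rpow_add hk0, sub_eq_add_neg]

lemma summable_kw (hg : 2 < g) : Summable (fun k : ℕ => (k : ℝ) * w g k) := by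
  have h1 : (fun k : ℕ => (k : ℝ) * w g k) = fun k : ℕ => (k : ℝ) ^ (1 - (1 + g)) := by
    funext k
    rw [← kw hg (by linarith : (1 : ℝ) ≠ 1 + g), Real.rpow_one]
  rw [h1]
  exact Real.summable_nat_rpow.mpr (by linarith)

/-- The weight of `0`. -/
noncomputable def w0 (m : ℕ) (g : ℝ) : ℝ :=
  ((m : ℝ) - 1) * (∑' k : ℕ, (k : ℝ) * w g k) - ∑' k : ℕ, w g k

lemma w0_pos (hm : 2 ≤ m) (hg : 2 < g) : 0 < w0 m g := by
  have hm2 : (2 : ℝ) ≤ m := by exact_mod_cast hm
  have h1 : Summable (fun k : ℕ => ((m : ℝ) - 1) * ((k : ℝ) * w g k) - w g k) :=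
    ((summable_kw hg).mul_left _).sub (summable_w hg)
  have h2 : w0 m g = ∑' k : ℕ, (((m : ℝ) - 1) * ((k : ℝ) * w g k) - w g k) := by
    unfold w0
    rw [((summable_kw hg).mul_left _).tsum_sub (summable_w hg), tsum_mul_left]
  rw [h2]
  have hnn : ∀ k : ℕ, 0 ≤ ((m : ℝ) - 1) * ((k : ℝ) * w g k) - w g k := by
    intro k
    rcases Nat.eq_zero_or_pos k with hk | hk
    · subst hk
      have : w g 0 = 0 := by
        unfold w
        rw [Nat.cast_zero, Real.zero_rpow (by linarith : -(1 + g) ≠ 0)]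
      simp [this]
    · have hk1 : (1 : ℝ) ≤ k := by exact_mod_cast hk
      have h3 : ((m : ℝ) - 1) * ((k : ℝ) * w g k) - w g k = (((m : ℝ) - 1) * k - 1) * w g k := by
        ring
      rw [h3]
      exact mul_nonneg (by nlinarith) (w_nonneg g k)
  refine h1.tsum_pos hnn 2 ?_
  have h3 : ((m : ℝ) - 1) * (((2 : ℕ) : ℝ) * w g 2) - w g 2 = (((m : ℝ) - 1) * 2 - 1) * w g 2 := by
    push_cast
    ring
  rw [h3]
  exact mul_pos (by linarith) (w_pos g (by norm_num))

/-- All weights. -/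
noncomputable def b (m : ℕ) (g : ℝ) (k : ℕ) : ℝ := w g k + if k = 0 then w0 m g else 0

lemma b_nonneg (hm : 2 ≤ m) (hg : 2 < g) (k : ℕ) : 0 ≤ b m g k := by
  unfold b
  have := w_nonneg g k
  have h1 := (w0_pos hm hg).le
  split_ifs <;> linarith

lemma hasSum_b (hg : 2 < g) : HasSum (b m g) ((∑' k : ℕ, w g k) + w0 m g) :=
  (summable_w hg).hasSum.add (hasSum_ite_eq 0 (w0 m g))

lemma hasSum_kb (hg : 2 < g) :
    HasSum (fun k : ℕ => (k : ℝ) * b m g k) (∑' k : ℕ, (k : ℝ) * w g k) := by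
  have h1 : (fun k : ℕ => (k : ℝ) * b m g k) = fun k : ℕ => (k : ℝ) * w g k := by
    funext k
    unfold b
    split_ifs with h
    · subst h
      simp
    · rw [add_zero]
  rw [h1]
  exact (summable_kw hg).hasSum

/-- The normalising constant. -/
noncomputable def Z (m : ℕ) (g : ℝ) : ℝ := ∑' k : ℕ, b m g k * ((m : ℝ)⁻¹) ^ k

lemma summable_Z (hm : 2 ≤ m) (hg : 2 < g) : Summable (fun k : ℕ => b m g k * ((m : ℝ)⁻¹) ^ k) := by
  have hm2 : (2 : ℝ) ≤ m := by exact_mod_cast hm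
  have hi : ((m : ℝ)⁻¹) ≤ 1 := inv_le_one_of_one_le₀ (by linarith)
  refine Summable.of_nonneg_of_le (fun k => mul_nonneg (b_nonneg hm hg k) (by positivity))
    (fun k => ?_) (hasSum_b (m := m) hg).summable
  exact mul_le_of_le_one_right (b_nonneg hm hg k) (pow_le_one₀ (by positivity) hi)

lemma Z_pos (hm : 2 ≤ m) (hg : 2 < g) : 0 < Z m g := by
  refine (summable_Z hm hg).tsum_pos
    (fun k => mul_nonneg (b_nonneg hm hg k) (by positivity)) 0 ?_
  unfold b
  have := w_nonneg g 0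
  have h1 := w0_pos hm hg
  simp
  linarith

/-- The probabilities of the law. -/
noncomputable def P (m : ℕ) (g : ℝ) (k : ℕ) : ℝ := b m g k * ((m : ℝ)⁻¹) ^ k / Z m g

lemma P_nonneg (hm : 2 ≤ m) (hg : 2 < g) (k : ℕ) : 0 ≤ P m g k :=
  div_nonneg (mul_nonneg (b_nonneg hm hg k) (by positivity)) (Z_pos hm hg).le

lemma P_mul (hm : 2 ≤ m) (k : ℕ) (x : ℝ) : P m g k * (x * (m : ℝ) ^ k) = x * b m g k / Z m g := by
  have hm0 : (m : ℝ) ≠ 0 := by
    have : (2 : ℝ) ≤ m := by exact_mod_cast hm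
    linarith
  unfold P
  have h1 : ((m : ℝ)⁻¹) ^ k * (m : ℝ) ^ k = 1 := by
    rw [← mul_pow, inv_mul_cancel₀ hm0, one_pow]
  calc b m g k * ((m : ℝ)⁻¹) ^ k / Z m g * (x * (m : ℝ) ^ k)
      = x * b m g k / Z m g * (((m : ℝ)⁻¹) ^ k * (m : ℝ) ^ k) := by ring
    _ = _ := by rw [h1, mul_one]

/-- The law. -/
noncomputable def heavy (m : ℕ) (g : ℝ) : Measure ℕ :=
  Measure.sum (fun k : ℕ => ENNReal.ofReal (P m g k) • Measure.dirac k)

lemma heavy_prob (hm : 2 ≤ m) (hg : 2 < g) : IsProbabilityMeasure (heavy m g) := by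
  refine ⟨?_⟩
  unfold heavy
  rw [Measure.sum_apply _ MeasurableSet.univ]
  have h1 : ∀ k : ℕ, (ENNReal.ofReal (P m g k) • Measure.dirac k : Measure ℕ) Set.univ =
      ENNReal.ofReal (P m g k) := by
    intro k
    simp
  simp_rw [h1]
  have h2 : HasSum (P m g) 1 := by
    have h3 := (summable_Z hm hg).hasSum.div_const (Z m g)
    have h4 : (∑' k : ℕ, b m g k * ((m : ℝ)⁻¹) ^ k) / Z m g = 1 := div_self (Z_pos hm hg).ne'
    rw [h4] at h3
    exact h3
  rw [← ENNReal.ofReal_tsum_of_nonneg (P_nonneg hm hg) h2.summable, h2.tsum_eq, ENNReal.ofReal_one]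

lemma heavy_zero (hm : 2 ≤ m) (hg : 2 < g) : heavy m g {0} ≠ 0 := by
  unfold heavy
  rw [Measure.sum_apply _ (MeasurableSet.singleton 0)]
  apply ne_of_gt
  refine lt_of_lt_of_le ?_ (ENNReal.le_tsum 0)
  have h1 : 0 < P m g 0 := by
    unfold P
    apply div_pos _ (Z_pos hm hg)
    unfold b
    have := w_nonneg g 0
    have h2 := w0_pos hm hg
    simp
    linarith
  simpa using h1

lemma heavy_integrable (hm : 2 ≤ m) (hg : 2 < g) {f : ℕ → ℝ} (hf : ∀ k, 0 ≤ f k) :
    Integrable f (heavy m g) ↔ Summable (fun k : ℕ => P m g k * f k) := by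
  unfold heavy
  rw [integrable_sum_dirac_iff (fun k => ENNReal.ofReal_ne_top)]
  apply summable_congr
  intro k
  rw [ENNReal.toReal_ofReal (P_nonneg hm hg k), Real.norm_of_nonneg (hf k)]

lemma heavy_integral (hm : 2 ≤ m) (hg : 2 < g) {f : ℕ → ℝ} {a : ℝ}
    (h : HasSum (fun k : ℕ => P m g k * f k) a) : ∫ k, f k ∂(heavy m g) = a := by
  unfold heavy
  rw [integral_sum_dirac (fun k => ENNReal.ofReal_ne_top)]
  rw [← h.tsum_eq]
  apply tsum_congr
  intro k
  rw [ENNReal.toReal_ofReal (P_nonneg hm hg k), smul_eq_mul]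

lemma heavy_moment (hm : 2 ≤ m) (hg : 2 < g) {x : ℝ} (hx : x ≠ 1 + g) :
    Integrable (fun k : ℕ => (k : ℝ) ^ x * (m : ℝ) ^ k) (heavy m g) ↔ x < g := by
  rw [heavy_integrable hm hg (fun k => by positivity)]
  simp_rw [P_mul hm]
  have hZ := Z_pos hm hg
  rw [summable_div_const_iff hZ.ne']
  have h1 : (fun k : ℕ => (k : ℝ) ^ x * b m g k) =
      fun k : ℕ => (k : ℝ) ^ (x - (1 + g)) + if k = 0 then (0 : ℝ) ^ x * w0 m g else 0 := by
    funext k
    unfold b
    rw [mul_add, kw hg hx]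
    congr 1
    split_ifs with h
    · rw [h, Nat.cast_zero]
    · rw [mul_zero]
  rw [h1]
  have h2 : Summable (fun k : ℕ => if k = 0 then (0 : ℝ) ^ x * w0 m g else 0) :=
    (hasSum_ite_eq 0 _).summable
  have h3 : Summable (fun k : ℕ => (k : ℝ) ^ (x - (1 + g)) +
      if k = 0 then (0 : ℝ) ^ x * w0 m g else 0) ↔
      Summable (fun k : ℕ => (k : ℝ) ^ (x - (1 + g))) := by
    refine ⟨fun h => ?_, fun h => h.add h2⟩
    refine (h.sub h2).congr (fun k => ?_)
    ring
  rw [h3, Real.summable_nat_rpow]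
  constructor <;> intro h <;> linarith

lemma heavy_critical (hm : 2 ≤ m) (hg : 2 < g) : Critical m (heavy m g) := by
  have hA : HasSum (fun k : ℕ => P m g k * (m : ℝ) ^ k)
      (((∑' k : ℕ, w g k) + w0 m g) / Z m g) := by
    refine ((hasSum_b hg).div_const (Z m g)).congr_fun ?_
    intro k
    have := P_mul (g := g) hm k 1
    rw [one_mul, one_mul] at this
    exact this
  have hB : HasSum (fun k : ℕ => P m g k * ((k : ℝ) * (m : ℝ) ^ k))
      ((∑' k : ℕ, (k : ℝ) * w g k) / Z m g) := by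
    refine ((hasSum_kb (m := m) hg).div_const (Z m g)).congr_fun ?_
    intro k
    exact P_mul hm k (k : ℝ)
  refine ⟨?_, ?_, ?_, ?_⟩
  · rw [heavy_integrable hm hg (fun k => by positivity)]
    exact hA.summable
  · rw [heavy_integrable hm hg (fun k => by positivity)]
    exact hB.summable
  · rw [heavy_integral hm hg hA, heavy_integral hm hg hB]
    unfold w0
    ring
  · rintro ⟨-, h1⟩
    have := heavy_prob hm hg
    have h2 : heavy m g ({1}ᶜ) = 0 := by
      rw [prob_compl_eq_zero_iff (MeasurableSet.singleton 1)]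
      exact h1
    exact heavy_zero hm hg (measure_mono_null (by simp) h2)

end example_law

/-- **No moment condition of order below three is enough, and all of them are necessary.**

* For every `m ≥ 2` and every order `γ < 3` there is a law `μ` on `ℕ` which satisfies `(∗)`, has
  `P (X_0 = 0) > 0` and `E (X_0 ^ γ m ^ X_0) < ∞`, and for which the asymptotics of Q1 fails for
  every `s` in `(0, m)` with `s ≠ 1`. In particular Q1 has a negative answer for every `m ≥ 2`.
* For every `m ≥ 2` and every law `μ` with `(∗)`: if the asymptotics of Q1 holds for at least one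
  `s` in `(0, m)` with `s ≠ 1`, then `E (X_0 ^ γ m ^ X_0) < ∞` for every `γ < 3`. -/
theorem result :
    (∀ m : ℕ, 2 ≤ m → ∀ γ : ℝ, γ < 3 → ∃ μ : Measure ℕ, IsProbabilityMeasure μ ∧
      Critical m μ ∧ μ {0} ≠ 0 ∧ Integrable (fun k : ℕ => (k : ℝ) ^ γ * (m : ℝ) ^ k) μ ∧
      ∀ s : ℝ, 0 < s → s < m → s ≠ 1 → ¬ Asymptotics m μ s) ∧
    (∀ m : ℕ, 2 ≤ m → ∀ μ : Measure ℕ, IsProbabilityMeasure μ → Critical m μ →
      (∃ s : ℝ, 0 < s ∧ s < m ∧ s ≠ 1 ∧ Asymptotics m μ s) →
      ∀ γ : ℝ, γ < 3 → Integrable (fun k : ℕ => (k : ℝ) ^ γ * (m : ℝ) ^ k) μ) := by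
  refine ⟨fun m hm γ hγ => ?_, fun m hm μ hμ h hex γ hγ => ?_⟩
  · obtain ⟨g, h1, h2⟩ := exists_between (show max γ 2 < 3 by
      rw [max_lt_iff]
      exact ⟨hγ, by norm_num⟩)
    rw [max_lt_iff] at h1
    have := heavy_prob hm h1.2
    refine ⟨heavy m g, this, heavy_critical hm h1.2, heavy_zero hm h1.2,
      (heavy_moment hm h1.2 (by linarith [h1.1])).mpr h1.1, fun s hs0 hsm hs1 has => ?_⟩
    have h3 := necessary hm (heavy_critical hm h1.2) hs0 hsm hs1 has h2
    rw [heavy_moment hm h1.2 (by linarith)] at h3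
    exact lt_irrefl _ h3
  · obtain ⟨s, hs0, hsm, hs1, has⟩ := hex
    exact necessary hm h hs0 hsm hs1 has hγ

end Pool.Agent.Results.MP_85987b_pr.BelowThree
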